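import Pool.Agent.H8.UGC.BDefs2

/-!
# Curves given by charts: identity theorem, removable singularities, Cauchy estimates
-/

set_option autoImplicit false

open MvPolynomial Filter Topology Metric Set

namespace Pool.Agent.H1.UGB

open Pool.Agent.H47.KB Pool.Agent.H8.UGC

variable {n : ℕ} {F : Frm n} {f : ℂ → Vec n}

/-- Removable singularities and Liouville. -/
theorem riemann_liouville {E : Set ℂ} (hE : ∀ z, ∀ᶠ w in 𝓝[≠] z, w ∈ E) {Φ : ℂ → ℂ}
    (hd : ∀ z ∈ E, DifferentiableAt ℂ Φ z) {K : ℝ} (hK : ∀ z ∈ E, ‖Φ z‖ ≤ K) : ∃ κ, ∀ z ∈ E, Φ z = κ := by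
  set Ψ : ℂ → ℂ := fun z => limUnder (𝓝[≠] z) Φ with hΨ
  have hlim : ∀ z, Tendsto Φ (𝓝[≠] z) (𝓝 (Ψ z)) := by
    intro z
    refine Complex.tendsto_limUnder_of_differentiable_on_punctured_nhds_of_bounded_under
      ((hE z).mono fun w hw => hd w hw) ?_
    refine ⟨K + ‖Φ z‖, ?_⟩
    rw [eventually_map]
    filter_upwards [hE z] with w hw
    exact (norm_sub_le _ _).trans (by linarith [hK w hw])
  have hEq : ∀ z ∈ E, Ψ z = Φ z := fun z hz =>
    tendsto_nhds_unique (hlim z) ((hd z hz).continuousAt.tendsto.mono_left nhdsWithin_le_nhds)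
  have hdiff : Differentiable ℂ Ψ := by
    intro z
    have h1 : {w | w ≠ z → w ∈ E} ∈ 𝓝 z := eventually_nhdsWithin_iff.1 (hE z)
    have h2 := Complex.differentiableOn_update_limUnder_of_bddAbove (f := Φ) h1
      (fun w hw => (hd w (hw.1 hw.2)).differentiableWithinAt)
      ⟨K, by
        rintro _ ⟨w, hw, rfl⟩
        exact hK w (hw.1 hw.2)⟩
    have h3 := (h2.differentiableAt h1)
    refine h3.congr_of_eventuallyEq ?_
    filter_upwards [h1] with w hw
    by_cases h : w = z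
    · subst h
      rw [Function.update_self]
    · rw [Function.update_of_ne h]
      exact hEq w (hw h)
  have hbd : ∀ z, ‖Ψ z‖ ≤ K := fun z =>
    le_of_tendsto (hlim z).norm ((hE z).mono fun w hw => hK w hw)
  refine ⟨Ψ 0, fun z hz => ?_⟩
  rw [← hEq z hz]
  refine hdiff.apply_eq_apply_of_bounded ?_ z 0
  rw [isBounded_iff_forall_norm_le]
  exact ⟨K, by
    rintro _ ⟨w, rfl⟩
    exact hbd w⟩

theorem eval_smul_hom {H : Frm n} {M : ℕ} (hH : H.IsHomogeneous M) (c : ℂ) (x : Vec n) :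
    eval (c • x) H = c ^ M * eval x H := by
  rw [eval_eq', eval_eq', Finset.mul_sum]
  refine Finset.sum_congr rfl fun m hm => ?_
  have h1 : m.degree = M := by
    have h2 := hH (mem_support_iff.1 hm)
    rw [Finsupp.degree_eq_weight_one]
    exact h2
  simp only [Pi.smul_apply, smul_eq_mul, mul_pow]
  rw [Finset.prod_mul_distrib, Finset.prod_pow_eq_pow_sum, ← h1, Finsupp.degree_eq_sum]
  ring

theorem eval_div {H : Frm n} {M : ℕ} (hH : H.IsHomogeneous M) (x : Vec n) {c : ℂ} (hc : c ≠ 0) :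
    eval x H = c ^ M * eval (fun j => x j / c) H := by
  have h1 : x = c • fun j => x j / c := by
    funext j
    rw [Pi.smul_apply, smul_eq_mul]
    field_simp
  conv_lhs => rw [h1]
  rw [eval_smul_hom hH]

theorem differentiableOn_eval {σ : Type*} {P : MvPolynomial σ ℂ} {x : ℂ → σ → ℂ} {s : Set ℂ}
    (hx : ∀ i, DifferentiableOn ℂ (fun w => x w i) s) : DifferentiableOn ℂ (fun w => eval (x w) P) s := by
  induction P using MvPolynomial.induction_on with
  | C a => simp
  | add p q hp hq =>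
    simp only [map_add]
    exact hp.add hq
  | mul_X p i hp =>
    simp only [map_mul, eval_X]
    exact hp.mul (hx i)

/-- Identity theorem: a form which does not vanish at one point of the curve vanishes only at isolated points. -/
theorem eventually_ne {r C : ℝ} (hr : 0 < r) (hch : ∀ z0 : ℂ, ∃ i, Ch f r C z0 i) {H : Frm n} {M : ℕ}
    (hH : H.IsHomogeneous M) {z1 : ℂ} (h1 : eval (f z1) H ≠ 0) (z : ℂ) :
    ∀ᶠ w in 𝓝[≠] z, eval (f w) H ≠ 0 := by
  -- local functions
  have hloc : ∀ z0 : ℂ, ∃ h : ℂ → ℂ, AnalyticOnNhd ℂ h (ball z0 r) ∧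
      ∀ w ∈ ball z0 r, (eval (f w) H = 0 ↔ h w = 0) := by
    intro z0
    obtain ⟨i, hi⟩ := hch z0
    refine ⟨fun w => eval (fun j => f w j / f w i) H, ?_, fun w hw => ?_⟩
    · exact (differentiableOn_eval fun j => hi.hol j).analyticOnNhd isOpen_ball
    · have h2 := eval_div hH (f w) (hi.ne w hw)
      rw [h2, mul_eq_zero]
      simp [pow_ne_zero _ (hi.ne w hw)]
  set Z : Set ℂ := {z | ∀ᶠ w in 𝓝 z, eval (f w) H = 0} with hZ
  have hopen : IsOpen Z := isOpen_setOfPred_eventually_nhds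
  have hclosed : IsClosed Z := by
    rw [← closure_subset_iff_isClosed]
    intro z0 hz0
    obtain ⟨h, hh, hiff⟩ := hloc z0
    obtain ⟨z', hz', hz'Z⟩ := mem_closure_iff.1 hz0 (ball z0 r) isOpen_ball (mem_ball_self hr)
    have hev : h =ᶠ[𝓝 z'] 0 := by
      filter_upwards [hz'Z, isOpen_ball.mem_nhds hz'] with w hw1 hw2
      exact (hiff w hw2).1 hw1
    have hz := hh.eqOn_zero_of_preconnected_of_eventuallyEq_zero (convex_ball z0 r).isPreconnected hz' hev
    show ∀ᶠ w in 𝓝 z0, eval (f w) H = 0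
    filter_upwards [ball_mem_nhds z0 hr] with w hw
    exact (hiff w hw).2 (hz hw)
  have hempty : Z = ∅ := by
    rcases isClopen_iff.1 ⟨hclosed, hopen⟩ with h | h
    · exact h
    · exfalso
      have h2 : z1 ∈ Z := h ▸ mem_univ z1
      have h3 : ∀ᶠ w in 𝓝 z1, eval (f w) H = 0 := h2
      exact h1 h3.self_of_nhds
  obtain ⟨h, hh, hiff⟩ := hloc z
  rcases (hh z (mem_ball_self hr)).eventually_eq_zero_or_eventually_ne_zero with h2 | h2
  · exfalso
    have h3 : z ∈ Z := by
      show ∀ᶠ w in 𝓝 z, eval (f w) H = 0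
      filter_upwards [h2, ball_mem_nhds z hr] with w hw1 hw2
      exact (hiff w hw2).2 hw1
    rw [hempty] at h3
    exact h3
  · filter_upwards [h2, nhdsWithin_le_nhds (ball_mem_nhds z hr)] with w hw1 hw2
    exact fun h3 => hw1 ((hiff w hw2).1 h3)

/-- The quotients are analytic where the denominator is not zero. -/
theorem analyticAt_quot {r C : ℝ} (hr : 0 < r) (hch : ∀ z0 : ℂ, ∃ i, Ch f r C z0 i) {z : ℂ} {i : Fin (n + 2)}
    (hi : f z i ≠ 0) (j : Fin (n + 2)) : AnalyticAt ℂ (fun w => f w j / f w i) z := by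
  obtain ⟨i0, h0⟩ := hch z
  have h1 : ∀ j, AnalyticAt ℂ (fun w => f w j / f w i0) z := fun j =>
    ((h0.hol j).analyticOnNhd isOpen_ball) z (mem_ball_self hr)
  have h2 : AnalyticAt ℂ (fun w => (f w j / f w i0) / (f w i / f w i0)) z :=
    (h1 j).div (h1 i) (div_ne_zero hi (h0.ne z (mem_ball_self hr)))
  refine h2.congr ?_
  filter_upwards [ball_mem_nhds z hr] with w hw
  exact div_div_div_cancel_right₀ (h0.ne w hw) _ _

/-- The coordinate `i` is not zero near `z`. -/
theorem eventually_ne' {r C : ℝ} (hr : 0 < r) (hch : ∀ z0 : ℂ, ∃ i, Ch f r C z0 i) {z : ℂ} {i : Fin (n + 2)}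
    (hi : f z i ≠ 0) : ∀ᶠ w in 𝓝 z, f w i ≠ 0 := by
  obtain ⟨i0, h0⟩ := hch z
  have h1 : AnalyticAt ℂ (fun w => f w i / f w i0) z :=
    ((h0.hol i).analyticOnNhd isOpen_ball) z (mem_ball_self hr)
  have h2 : ∀ᶠ w in 𝓝 z, f w i / f w i0 ≠ 0 :=
    h1.continuousAt.eventually_ne (div_ne_zero hi (h0.ne z (mem_ball_self hr)))
  filter_upwards [h2] with w hw h3
  exact hw (by rw [h3, zero_div])

/-- Cauchy estimates at the centre of a chart. -/
theorem cauchy {r C : ℝ} (hr : 0 < r) {z : ℂ} {i : Fin (n + 2)} (h : Ch f r C z i) (j : Fin (n + 2)) (s : ℕ) :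
    ‖iteratedDeriv s (fun w => f w j / f w i) z‖ ≤ s.factorial * C / (r / 2) ^ s := by
  have hsub : closedBall z (r / 2) ⊆ ball z r := closedBall_subset_ball (by linarith)
  refine Complex.norm_iteratedDeriv_le_of_forall_mem_sphere_norm_le s (by positivity)
    ((h.hol j).diffContOnCl_ball hsub) fun w hw => ?_
  have hw' : w ∈ ball z r := hsub (sphere_subset_closedBall hw)
  rw [norm_div, div_le_iff₀ (norm_pos_iff.2 (h.ne w hw'))]
  exact h.le w hw' j

/-- A curve whose quotients `f_j / f_0` are constant on a set with discrete complement is constant. -/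
theorem isConst_of {r C : ℝ} (hr : 0 < r) (hch : ∀ z0 : ℂ, ∃ i, Ch f r C z0 i) {E : Set ℂ}
    (hE : ∀ z, ∀ᶠ w in 𝓝[≠] z, w ∈ E) (hE0 : ∀ w ∈ E, f w 0 ≠ 0) {κ : Fin (n + 2) → ℂ}
    (hκ : ∀ w ∈ E, ∀ j, f w j / f w 0 = κ j) : IsConst f := by
  have hne : ∀ z, f z 0 ≠ 0 := by
    intro z
    obtain ⟨i, hi⟩ := hch z
    have h1 : ContinuousAt (fun w => f w 0 / f w i) z :=
      (((hi.hol 0).analyticOnNhd isOpen_ball) z (mem_ball_self hr)).continuousAt
    have h2 : Tendsto (fun w => f w 0 / f w i) (𝓝[≠] z) (𝓝 (f z 0 / f z i)) :=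
      h1.tendsto.mono_left nhdsWithin_le_nhds
    have h3 : (fun w => f w 0 / f w i) =ᶠ[𝓝[≠] z] fun _ => (κ i)⁻¹ := by
      filter_upwards [hE z] with w hw
      rw [← hκ w hw i, inv_div]
    have h4 : f z 0 / f z i = (κ i)⁻¹ := tendsto_nhds_unique (h2.congr' h3) tendsto_const_nhds
    obtain ⟨w, hw1, hw2⟩ := ((hE z).and (nhdsWithin_le_nhds (ball_mem_nhds z hr))).exists
    have h5 : κ i ≠ 0 := by
      rw [← hκ w hw1 i]
      exact div_ne_zero (hi.ne w hw2) (hE0 w hw1)
    intro h6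
    rw [h6, zero_div] at h4
    exact inv_ne_zero h5 h4.symm
  have hall : ∀ z j, f z j / f z 0 = κ j := by
    intro z j
    have h1 : ContinuousAt (fun w => f w j / f w 0) z := (analyticAt_quot hr hch (hne z) j).continuousAt
    have h2 : Tendsto (fun w => f w j / f w 0) (𝓝[≠] z) (𝓝 (f z j / f z 0)) :=
      h1.tendsto.mono_left nhdsWithin_le_nhds
    have h3 : (fun w => f w j / f w 0) =ᶠ[𝓝[≠] z] fun _ => κ j := by
      filter_upwards [hE z] with w hw
      exact hκ w hw j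
    exact tendsto_nhds_unique (h2.congr' h3) tendsto_const_nhds
  intro z
  refine ⟨f z 0 / f 0 0, funext fun j => ?_⟩
  have h1 := hall z j
  have h2 := hall 0 j
  have h3 := hne z
  have h4 := hne 0
  rw [← h2] at h1
  rw [Pi.smul_apply, smul_eq_mul]
  field_simp at h1 ⊢
  linear_combination h1

end Pool.Agent.H1.UGB
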