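import Pool.Agent.H57.UGB.Tay
import Pool.Agent.H1.UGB.An1
import Pool.Agent.H1.UG.BVan

/-!
# AN: jet differentials with negative twist vanish on curves with bounded derivative
-/

set_option autoImplicit false

open MvPolynomial Filter Topology Metric Set

namespace Pool.Agent.H1.UGB

open Pool.Agent.H47.KB Pool.Agent.H8.UGC Pool.Agent.H57.UGB

/-- Taylor series of a product. -/
theorem taylor_mul {h1 h2 : ℂ → ℂ} {z : ℂ} (hh1 : AnalyticAt ℂ h1 z) (hh2 : AnalyticAt ℂ h2 z) :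
    (PowerSeries.mk fun s => iteratedDeriv s (fun w => h1 w * h2 w) z / (s.factorial : ℂ)) =
      (PowerSeries.mk fun s => iteratedDeriv s h1 z / (s.factorial : ℂ)) *
        (PowerSeries.mk fun s => iteratedDeriv s h2 z / (s.factorial : ℂ)) := by
  ext s
  rw [PowerSeries.coeff_mul, PowerSeries.coeff_mk, iteratedDeriv_fun_mul hh1.contDiffAt hh2.contDiffAt,
    Finset.Nat.sum_antidiagonal_eq_sum_range_succ_mk, Finset.sum_div]
  refine Finset.sum_congr rfl fun i hi => ?_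
  rw [PowerSeries.coeff_mk, PowerSeries.coeff_mk, Nat.cast_choose _ (by
    rw [Finset.mem_range] at hi
    omega)]
  have h3 := Nat.factorial_ne_zero s
  have h4 := Nat.factorial_ne_zero i
  have h5 := Nat.factorial_ne_zero (s - i)
  field_simp

variable {n : ℕ} {f : ℂ → Vec n}

theorem pt_eq_eval {k : ℕ} (a : (Fin (n + 2) →₀ ℕ) → ℂ) (y : Fin (n + 2) → PowerSeries ℂ) (P : JR n k) :
    pt a y P = eval (Sum.elim a fun v : Fin (n + 2) × Fin (k + 1) => PowerSeries.coeff (v.2 : ℕ) (y v.1)) P :=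
  rfl

theorem coeff_tay (i j : Fin (n + 2)) (z : ℂ) (s : ℕ) :
    PowerSeries.coeff s (tay f i z j) = iteratedDeriv s (fun t => f t j / f t i) z / s.factorial :=
  PowerSeries.coeff_mk _ _

theorem constantCoeff_tay (i j : Fin (n + 2)) (z : ℂ) :
    PowerSeries.constantCoeff (tay f i z j) = f z j / f z i := by
  rw [← PowerSeries.coeff_zero_eq_constantCoeff_apply, coeff_tay]
  simp

section

variable {r C : ℝ} (hr : 0 < r) (hch : ∀ z0 : ℂ, ∃ i, Ch f r C z0 i)

include hr hch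

theorem tay_self {z : ℂ} {i : Fin (n + 2)} (hi : f z i ≠ 0) : tay f i z i = 1 := by
  have h1 : (fun t => f t i / f t i) =ᶠ[𝓝 z] fun _ => (1 : ℂ) := by
    filter_upwards [Pool.Agent.H1.UGB.eventually_ne' hr hch hi] with w hw
    exact div_self hw
  ext s
  rw [coeff_tay, h1.iteratedDeriv_eq s, PowerSeries.coeff_one, iteratedDeriv_const]
  split_ifs with h
  · subst h
    simp
  · simp

theorem tay_mul {z : ℂ} {i i' : Fin (n + 2)} (hi : f z i ≠ 0) (hi' : f z i' ≠ 0) (j : Fin (n + 2)) :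
    tay f i z j * tay f i' z i = tay f i' z j := by
  have h1 := taylor_mul (Pool.Agent.H1.UGB.analyticAt_quot hr hch hi j)
    (Pool.Agent.H1.UGB.analyticAt_quot hr hch hi' i)
  unfold tay
  rw [← h1]
  ext s
  rw [PowerSeries.coeff_mk, PowerSeries.coeff_mk]
  have h2 : (fun w => f w j / f w i * (f w i / f w i')) =ᶠ[𝓝 z] fun t => f t j / f t i' := by
    filter_upwards [Pool.Agent.H1.UGB.eventually_ne' hr hch hi] with w hw
    exact div_mul_div_cancel₀ hw
  rw [h2.iteratedDeriv_eq s]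

theorem differentiableAt_pt {k : ℕ} (a : (Fin (n + 2) →₀ ℕ) → ℂ) (P : JR n k) {z : ℂ} {i : Fin (n + 2)}
    (hi : f z i ≠ 0) : DifferentiableAt ℂ (fun w => pt a (tay f i w) P) z := by
  simp only [pt_eq_eval]
  refine Pool.Agent.H1.UG.differentiableAt_eval fun v => ?_
  rcases v with α | v
  · simp
  · simp only [Sum.elim_inr, coeff_tay]
    refine DifferentiableAt.div_const ?_ _
    have h1 := (Pool.Agent.H1.UGB.analyticAt_quot hr hch hi v.1).iterated_deriv (v.2 : ℕ)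
    rw [← iteratedDeriv_eq_iterate] at h1
    exact h1.differentiableAt

omit hch in
/-- Polynomials in the jets are bounded at the centres of the charts. -/
theorem pt_bounded {k : ℕ} (a : (Fin (n + 2) →₀ ℕ) → ℂ) (Q : JR n k) :
    ∃ K : ℝ, ∀ (z : ℂ) (i : Fin (n + 2)), Ch f r C z i → ‖pt a (tay f i z) Q‖ ≤ K := by
  refine ⟨∑ m ∈ Q.support, ‖coeff m Q‖ * ∏ i ∈ m.support,
    (Sum.elim (fun α => ‖a α‖) fun v : Fin (n + 2) × Fin (k + 1) => C / (r / 2) ^ (v.2 : ℕ)) i ^ m i,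
    fun z i h => ?_⟩
  rw [pt_eq_eval]
  refine Pool.Agent.H1.UG.norm_eval_le ?_
  rintro (α | v)
  · simp
  · simp only [Sum.elim_inr, coeff_tay]
    have h1 := Pool.Agent.H1.UGB.cauchy hr h v.1 (v.2 : ℕ)
    have h2 : (0 : ℝ) < ((v.2 : ℕ).factorial : ℝ) := by positivity
    rw [norm_div, Complex.norm_natCast, div_le_iff₀ h2]
    refine h1.trans (le_of_eq ?_)
    ring

end

theorem gen_isHomogeneous {R : Type} [CommRing R] (n d : ℕ) (a : (Fin (n + 2) →₀ ℕ) → R) :
    (gen n d a).IsHomogeneous d := by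
  unfold gen
  refine IsHomogeneous.sum _ _ _ fun α hα => ?_
  refine isHomogeneous_monomial _ ?_
  rw [Finset.mem_finsuppAntidiag] at hα
  rw [Finsupp.degree_eq_sum]
  exact hα.1

end Pool.Agent.H1.UGB

namespace Pool.Agent.H57.UGB

open Pool.Agent.H47.KB Pool.Agent.H8.UGC Pool.Agent.H1.UGB

/-- AN, with the equation of the jets as a hypothesis. -/
theorem an_of (n d k : ℕ) (c : Cof n) (e : ℕ) (he : 0 < e) (P : JR n k) (hP : Neg n d k c e P)
    (a : (Fin (n + 2) →₀ ℕ) → ℂ) (hc : aeval a c ≠ 0) (f : ℂ → Vec n)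
    (hf : Pool.Agent.H8.UGC.BrodyC (gen n d a) f) (hnc : ¬ IsConst f)
    (hon : ∀ w, f w 0 ≠ 0 → OnT d k a (tay f 0 w)) (z : ℂ) (h0 : f z 0 ≠ 0)
    (h1 : eval (f z) (pderiv (Fin.last (n + 1)) (gen n d a)) ≠ 0) :
    pt a (tay f 0 z) P = 0 := by
  classical
  obtain ⟨⟨r, hr, C, hch⟩, -⟩ := hf
  set G : Frm n := pderiv (Fin.last (n + 1)) (gen n d a) with hG
  have hGh : G.IsHomogeneous (d - 1) := (gen_isHomogeneous n d a).pderiv
  set E : Set ℂ := {w | f w 0 ≠ 0 ∧ eval (f w) G ≠ 0} with hE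
  have hEd : ∀ z, ∀ᶠ w in 𝓝[≠] z, w ∈ E := by
    intro z'
    have hH : (X 0 * G : Frm n).IsHomogeneous (1 + (d - 1)) := (isHomogeneous_X ℂ (0 : Fin (n + 2))).mul hGh
    have h2 : eval (f z) (X 0 * G) ≠ 0 := by
      rw [map_mul, eval_X]
      exact mul_ne_zero h0 h1
    filter_upwards [Pool.Agent.H1.UGB.eventually_ne hr hch hH h2 z'] with w hw
    rw [map_mul, eval_X] at hw
    exact ⟨left_ne_zero_of_mul hw, right_ne_zero_of_mul hw⟩
  choose Q hQ using hP
  have hrel : ∀ w ∈ E, ∀ i, Ch f r C w i →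
      (f w i / f w 0) ^ e * pt a (tay f 0 w) P = pt a (tay f i w) (Q i) := by
    intro w hw i hi
    have hfi : f w i ≠ 0 := hi.ne w (mem_ball_self hr)
    have h2 := hQ i ℂ a (tay f 0 w) (tay f i w) (hon w hw.1) (tay_self hr hch hw.1) (tay_self hr hch hfi)
      (fun j => tay_mul hr hch hfi hw.1 j) (isUnit_iff_ne_zero.2 hc) ?_ ?_
    · rw [constantCoeff_tay] at h2
      exact h2
    · rw [isUnit_iff_ne_zero]
      unfold FL
      have h3 : (fun j => PowerSeries.constantCoeff (tay f 0 w j)) = fun j => f w j / f w 0 := by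
        funext j
        exact constantCoeff_tay 0 j w
      rw [h3]
      intro h4
      apply hw.2
      rw [Pool.Agent.H1.UGB.eval_div hGh (f w) hw.1, h4, mul_zero]
    · rw [constantCoeff_tay, isUnit_iff_ne_zero]
      exact div_ne_zero hfi hw.1
  have hK : ∀ i, ∃ K : ℝ, ∀ (z : ℂ), Ch f r C z i → ‖pt a (tay f i z) (Q i)‖ ≤ K := by
    intro i
    obtain ⟨K, hK⟩ := pt_bounded (f := f) (C := C) hr a (Q i)
    exact ⟨K, fun z h => hK z i h⟩
  choose K hK using hK
  have hCpos : 0 < C := by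
    obtain ⟨i, hi⟩ := hch 0
    have h2 := hi.le 0 (mem_ball_self hr) i
    have h3 : 0 < ‖f 0 i‖ := norm_pos_iff.2 (hi.ne 0 (mem_ball_self hr))
    by_contra h4
    push Not at h4
    have h5 : C * ‖f 0 i‖ ≤ 0 := mul_nonpos_of_nonpos_of_nonneg h4 h3.le
    linarith
  have hsum : ∀ i, K i ≤ ∑ i, |K i| := fun i =>
    (le_abs_self _).trans (Finset.single_le_sum (f := fun i => |K i|) (fun _ _ => abs_nonneg _) (Finset.mem_univ i))
  set M : ℝ := ∑ i, |K i| with hM
  have hM0 : 0 ≤ M := Finset.sum_nonneg fun _ _ => abs_nonneg _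
  -- the function is bounded
  have hbd : ∀ w ∈ E, ‖pt a (tay f 0 w) P‖ ≤ C ^ e * M := by
    intro w hw
    obtain ⟨i, hi⟩ := hch w
    have h2 := hrel w hw i hi
    have hfi : 0 < ‖f w i‖ := norm_pos_iff.2 (hi.ne w (mem_ball_self hr))
    have hf0 : 0 < ‖f w 0‖ := norm_pos_iff.2 hw.1
    have h3 : pt a (tay f 0 w) P = (f w 0 / f w i) ^ e * pt a (tay f i w) (Q i) := by
      rw [← h2, ← mul_assoc, ← mul_pow]
      have h4 : f w 0 / f w i * (f w i / f w 0) = 1 := by
        have h5 := hw.1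
        have h6 := hi.ne w (mem_ball_self hr)
        field_simp
      rw [h4, one_pow, one_mul]
    rw [h3, norm_mul, norm_pow, norm_div]
    have h4 : ‖f w 0‖ / ‖f w i‖ ≤ C := by
      rw [div_le_iff₀ hfi]
      exact hi.le w (mem_ball_self hr) 0
    have h5 : ‖pt a (tay f i w) (Q i)‖ ≤ M := (hK i w hi).trans (hsum i)
    have h6 : (‖f w 0‖ / ‖f w i‖) ^ e ≤ C ^ e := pow_le_pow_left₀ (by positivity) h4 e
    exact mul_le_mul h6 h5 (norm_nonneg _) (by positivity)
  obtain ⟨κ, hκ⟩ := Pool.Agent.H1.UGB.riemann_liouville hEd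
    (fun w hw => differentiableAt_pt hr hch a P hw.1) hbd
  rw [hκ z ⟨h0, h1⟩]
  by_contra hκ0
  have hκpos : 0 < ‖κ‖ := norm_pos_iff.2 hκ0
  -- all the quotients are bounded
  have hq : ∀ j, ∃ c, ∀ w ∈ E, f w j / f w 0 = c := by
    intro j
    refine Pool.Agent.H1.UGB.riemann_liouville (K := C * (1 + M / ‖κ‖)) hEd
      (fun w hw => (Pool.Agent.H1.UGB.analyticAt_quot hr hch hw.1 j).differentiableAt) fun w hw => ?_
    obtain ⟨i, hi⟩ := hch w
    have h2 := hrel w hw i hi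
    rw [hκ w hw] at h2
    have h3 : ‖f w i / f w 0‖ ^ e * ‖κ‖ ≤ M := by
      rw [← norm_pow, ← norm_mul, h2]
      exact (hK i w hi).trans (hsum i)
    have h4 : ‖f w i / f w 0‖ ^ e ≤ M / ‖κ‖ := by
      rw [le_div_iff₀ hκpos]
      exact h3
    have h5 : ‖f w i / f w 0‖ ≤ 1 + M / ‖κ‖ := by
      rcases le_total ‖f w i / f w 0‖ 1 with h | h
      · have : 0 ≤ M / ‖κ‖ := by positivity
        linarith
      · have := le_self_pow₀ h he.ne'
        linarith
    have hf0 : 0 < ‖f w 0‖ := norm_pos_iff.2 hw.1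
    have h6 : ‖f w j / f w 0‖ ≤ C * ‖f w i / f w 0‖ := by
      rw [norm_div, norm_div, ← mul_div_assoc]
      gcongr
      exact hi.le w (mem_ball_self hr) j
    exact h6.trans (by gcongr)
  choose κ' hκ' using hq
  exact hnc (Pool.Agent.H1.UGB.isConst_of hr hch hEd (fun w hw => hw.1) fun w hw j => hκ' j w hw)

end Pool.Agent.H57.UGB
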