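import Pool.Agent.H1.UGB.An
import Pool.Agent.H19.UGB.Tay

set_option autoImplicit false

open MvPolynomial

namespace Pool.Agent.H57.UGB

open Pool.Agent.H47.KB

/-- AN: jet differentials with negative twist vanish on curves with bounded derivative. -/
theorem an (n d k : ℕ) (_hk : 1 ≤ k) (c : Cof n) (e : ℕ) (he : 0 < e) (P : JR n k) (hP : Neg n d k c e P)
    (a : (Fin (n + 2) →₀ ℕ) → ℂ) (hc : aeval a c ≠ 0) (f : ℂ → Vec n)
    (hf : Pool.Agent.H8.UGC.BrodyC (gen n d a) f) (hnc : ¬ IsConst f) (z : ℂ) (h0 : f z 0 ≠ 0)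
    (h1 : eval (f z) (pderiv (Fin.last (n + 1)) (gen n d a)) ≠ 0) :
    pt a (tay f 0 z) P = 0 :=
  an_of n d k c e he P hP a hc f hf hnc (fun w hw => onT_tay n d k a f hf w 0 hw) z h0 h1

end Pool.Agent.H57.UGB
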